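import Mathlib

set_option autoImplicit false

namespace Pool.Agent.CFMult

/-- complete quotients -/
noncomputable def cq (θ : ℝ) : ℕ → ℝ
  | 0 => θ
  | n + 1 => (Int.fract (cq θ n))⁻¹

/-- finite continued fraction with last entry `t` -/
noncomputable def kf : List ℤ → ℝ → ℝ
  | [], t => t
  | a :: w, t => a + (kf w t)⁻¹

/-- matrix of a word -/
def mat : List ℤ → ℤ × ℤ × ℤ × ℤ
  | [] => (1, 0, 0, 1)
  | a :: w => (a * (mat w).1 + (mat w).2.2.1, a * (mat w).2.1 + (mat w).2.2.2,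
      (mat w).1, (mat w).2.1)

theorem kf_append (w l : List ℤ) (t : ℝ) : kf (w ++ l) t = kf w (kf l t) := by
  induction w with
  | nil => rfl
  | cons a w ih => simp [kf, ih]

theorem kf_gt (w : List ℤ) (hw : ∀ a ∈ w, 1 ≤ a) {t : ℝ} (ht : 1 < t) : 1 < kf w t := by
  induction w with
  | nil => exact ht
  | cons a w ih =>
    have h1 := ih (fun b hb => hw b (List.mem_cons_of_mem _ hb))
    have h2 : (1 : ℝ) ≤ a := by exact_mod_cast hw a List.mem_cons_self
    have h3 : 0 < (kf w t)⁻¹ := inv_pos.mpr (by linarith)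
    simp only [kf]; linarith

theorem mat_det (w : List ℤ) :
    (mat w).1 * (mat w).2.2.2 - (mat w).2.1 * (mat w).2.2.1 = (-1) ^ w.length := by
  induction w with
  | nil => simp [mat]
  | cons a w ih => simp only [mat, List.length_cons, pow_succ, ← ih]; ring

theorem mat_pos (w : List ℤ) (hw : ∀ a ∈ w, 1 ≤ a) :
    1 ≤ (mat w).1 ∧ 0 ≤ (mat w).2.1 ∧ 0 ≤ (mat w).2.2.1 ∧ 0 ≤ (mat w).2.2.2 := by
  induction w with
  | nil => simp [mat]
  | cons a w ih =>
    obtain ⟨h1, h2, h3, h4⟩ := ih (fun b hb => hw b (List.mem_cons_of_mem _ hb))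
    have h5 := hw a List.mem_cons_self
    simp only [mat]
    refine ⟨by nlinarith, by nlinarith, by linarith, h2⟩

theorem kf_mat (w : List ℤ) (hw : ∀ a ∈ w, 1 ≤ a) {t : ℝ} (ht : 1 < t) :
    kf w t * ((mat w).2.2.1 * t + (mat w).2.2.2) = (mat w).1 * t + (mat w).2.1 := by
  induction w with
  | nil => simp [mat, kf]
  | cons a w ih =>
    have hw' : ∀ b ∈ w, 1 ≤ b := fun b hb => hw b (List.mem_cons_of_mem _ hb)
    have h0 := ih hw'
    have h1 : kf w t ≠ 0 := by have := kf_gt w hw' ht; linarith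
    simp only [mat, kf]
    push_cast
    rw [← h0]
    field_simp
    linear_combination (a : ℝ) * h0

theorem floor_kf (a : ℤ) {u : ℝ} (hu : 1 < u) : ⌊(a : ℝ) + u⁻¹⌋ = a := by
  have h3 : 0 < u⁻¹ := inv_pos.mpr (by linarith)
  have h4 : u⁻¹ < 1 := inv_lt_one_of_one_lt₀ hu
  rw [Int.floor_eq_iff]; constructor <;> linarith

theorem fract_kf (a : ℤ) {u : ℝ} (hu : 1 < u) : (Int.fract ((a : ℝ) + u⁻¹))⁻¹ = u := by
  rw [Int.fract, floor_kf a hu]; simp

theorem cq_add (θ : ℝ) (m n : ℕ) : cq θ (m + n) = cq (cq θ m) n := by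
  induction n with
  | zero => rfl
  | succ n ih => rw [← add_assoc]; simp only [cq, ih]

theorem cq_kf (w : List ℤ) (hw : ∀ a ∈ w, 1 ≤ a) {t : ℝ} (ht : 1 < t) :
    cq (kf w t) w.length = t ∧ ∀ i < w.length, ⌊cq (kf w t) i⌋ ∈ w := by
  induction w with
  | nil => simp [cq, kf]
  | cons a w ih =>
    have hw' : ∀ b ∈ w, 1 ≤ b := fun b hb => hw b (List.mem_cons_of_mem _ hb)
    obtain ⟨h1, h2⟩ := ih hw'
    have h3 := kf_gt w hw' ht
    have h4 : ∀ i, cq (kf (a :: w) t) (i + 1) = cq (kf w t) i := by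
      intro i
      rw [add_comm, cq_add]
      simp only [cq, kf, fract_kf a h3]
    refine ⟨by rw [List.length_cons, h4, h1], ?_⟩
    intro i hi
    cases i with
    | zero => simp only [cq, kf, floor_kf a h3]; exact List.mem_cons_self
    | succ i =>
      rw [h4]
      exact List.mem_cons_of_mem _ (h2 i (by simpa using hi))

/-- least period of the digits of index at least one -/
def IsPer (θ : ℝ) (k : ℕ) : Prop :=
  IsLeast {T : ℕ | 0 < T ∧ ∀ i, ⌊cq θ (i + T + 1)⌋ = ⌊cq θ (i + 1)⌋} k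

theorem isPer_of (w : List ℤ) (hw : ∀ a ∈ w, 1 ≤ a) {θ : ℝ} {a : ℤ} (ha : 1 ≤ a) (hθ : 0 < θ)
    (hbig : ∀ c ∈ w, c < 2 * a) (h : (θ - a)⁻¹ = kf w (θ + a)) : IsPer θ (w.length + 1) := by
  have ha' : (1 : ℝ) ≤ a := by exact_mod_cast ha
  have ht : 1 < θ + a := by linarith
  have h1 := kf_gt w hw ht
  obtain ⟨h2, h3⟩ := cq_kf w hw ht
  set β := kf w (θ + a) with hβ
  have e0 : θ = a + β⁻¹ := by rw [← h]; simp
  have e1 : cq θ 1 = β := by
    simp only [cq]; conv_lhs => rw [e0]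
    exact fract_kf a h1
  have e2 : θ + a = ((2 * a : ℤ) : ℝ) + β⁻¹ := by push_cast; linarith
  have e3 : ∀ i, cq θ (i + 1) = cq β i := by intro i; rw [add_comm, cq_add, e1]
  have e4 : cq β (w.length + 1) = β := by
    simp only [cq]; rw [h2, e2]; exact fract_kf _ h1
  have e5 : ⌊cq β w.length⌋ = 2 * a := by rw [h2, e2]; exact floor_kf _ h1
  constructor
  · refine ⟨Nat.succ_pos _, fun i => ?_⟩
    rw [e3, e3, add_comm i, cq_add, e4]
  · rintro T ⟨hT, hp⟩
    by_contra hlt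
    have h5 := hp (w.length - T)
    rw [e3, e3, show w.length - T + T = w.length by omega, e5] at h5
    have h6 := hbig _ (h3 (w.length - T) (by omega))
    omega

/-- `θ = [b; w, θ + b]` -/
def Good (θ : ℝ) (b : ℤ) (w : List ℤ) : Prop :=
  1 ≤ b ∧ (∀ a ∈ w, 1 ≤ a) ∧ (θ - b)⁻¹ = kf w (θ + b)

theorem irr_lin {θ : ℝ} (hθ : Irrational θ) {u v : ℤ} (h : (u : ℝ) * θ = v) : u = 0 ∧ v = 0 := by
  have hu : u = 0 := by
    by_contra hu
    exact (hθ.intCast_mul hu).ne_int v h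
  subst hu
  refine ⟨rfl, ?_⟩
  have : (v : ℝ) = 0 := by rw [← h]; simp
  exact_mod_cast this

theorem Good.app {θ : ℝ} {b : ℤ} {w w' : List ℤ} (h : Good θ b w) (h' : Good θ b w') :
    Good θ b (w ++ (2 * b) :: w') := by
  obtain ⟨h1, h2, h3⟩ := h
  obtain ⟨-, h2', h3'⟩ := h'
  refine ⟨h1, ?_, ?_⟩
  · intro a ha
    rcases List.mem_append.mp ha with ha | ha
    · exact h2 a ha
    · rcases List.mem_cons.mp ha with rfl | ha
      · omega
      · exact h2' a ha
  · rw [kf_append, h3]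
    congr 1
    simp only [kf]
    rw [← h3', inv_inv]; push_cast; ring

theorem Good.rep {θ : ℝ} {b : ℤ} {w : List ℤ} (h : Good θ b w) (j : ℕ) :
    ∃ w', Good θ b w' ∧ w'.length + 1 = (j + 1) * (w.length + 1) := by
  induction j with
  | zero => exact ⟨w, h, by ring⟩
  | succ j ih =>
    obtain ⟨w', h1, h2⟩ := ih
    refine ⟨_, h.app h1, ?_⟩
    simp only [List.length_append, List.length_cons]
    rw [h2]; ring

theorem Good.lift {θ : ℝ} {b : ℤ} {w : List ℤ} (h : Good θ b w) (hθ : Irrational θ)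
    (hpos : 0 < θ) {E : ℤ} (hE : θ ^ 2 = E) :
    ∃ N a : ℤ, 2 ≤ N ∧ b < a ∧ Good (N * θ) a w := by
  obtain ⟨h1, h2, h3⟩ := h
  have hb : (1 : ℝ) ≤ b := by exact_mod_cast h1
  have ht : 1 < θ + b := by linarith
  have hm := kf_mat w h2 ht
  have hd := mat_det w
  obtain ⟨hp, hp', hq, hr⟩ := mat_pos w h2
  have hkf : ∀ {t : ℝ}, 1 < t → _ := fun {t} ht => kf_mat w h2 (t := t) ht
  generalize (mat w).1 = p at *
  generalize (mat w).2.1 = p' at *
  generalize (mat w).2.2.1 = q at *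
  generalize (mat w).2.2.2 = r at *
  have hne : θ - b ≠ 0 := sub_ne_zero.mpr (hθ.ne_int b)
  rw [← h3] at hm
  have hm2 : ((q - p' : ℤ) : ℝ) * θ = ((p * (E - b ^ 2) - b * p' - q * b - r : ℤ) : ℝ) := by
    push_cast
    field_simp at hm
    rw [← hE]; linear_combination hm
  obtain ⟨e1, e2⟩ := irr_lin hθ hm2
  obtain rfl : q = p' := by omega
  have hE1 : 1 ≤ E := by
    have : (0 : ℝ) < E := by rw [← hE]; positivity
    exact_mod_cast this
  obtain ⟨σ, hσ, hσ2⟩ : ∃ σ : ℤ, q * q - p * r = σ ∧ (σ = 1 ∨ σ = -1) := by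
    refine ⟨_, rfl, ?_⟩
    rcases neg_one_pow_eq_or ℤ w.length with h | h <;> rw [h] at hd <;> omega
  have hs : σ ^ 2 = 1 := by rcases hσ2 with rfl | rfl <;> norm_num
  obtain ⟨u, hu⟩ : ∃ u : ℤ, u = p * b + q := ⟨_, rfl⟩
  have hu1 : 1 ≤ u := by nlinarith
  have hn : u ^ 2 - E * p ^ 2 = σ := by rw [hu, ← hσ]; linear_combination (-p) * e2
  obtain ⟨N, hN⟩ : ∃ N : ℤ, N = 16 * u ^ 4 - 12 * σ * u ^ 2 + 1 := ⟨_, rfl⟩
  obtain ⟨a, ha⟩ : ∃ a : ℤ, a = b + 4 * u * (4 * u ^ 2 - σ) * E * p := ⟨_, rfl⟩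
  have hu2 : 1 ≤ u ^ 2 := by nlinarith
  have hN2 : 2 ≤ N := by
    rw [hN]; rcases hσ2 with rfl | rfl <;> nlinarith
  have hba : b < a := by
    have : 0 < 4 * u ^ 2 - σ := by rcases hσ2 with rfl | rfl <;> linarith
    have : 0 < 4 * u * (4 * u ^ 2 - σ) * E * p := by positivity
    linarith
  have hX : p * a + q = u + 4 * u * (4 * u ^ 2 - σ) * (u ^ 2 - σ) := by
    rw [ha, ← hn]; linear_combination -hu
  have hkey : (p * a + q) ^ 2 - N ^ 2 * (E * p ^ 2) = σ := by
    rw [hX, show E * p ^ 2 = u ^ 2 - σ by linarith, hN]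
    rcases hσ2 with rfl | rfl <;> ring
  have hid : p * (N ^ 2 * E - a ^ 2) = 2 * a * q + r := by
    apply mul_left_cancel₀ (show p ≠ 0 by omega)
    linear_combination -hkey + hσ
  refine ⟨N, a, hN2, hba, by omega, h2, ?_⟩
  have hNr : (2 : ℝ) ≤ N := by exact_mod_cast hN2
  have har : (1 : ℝ) ≤ a := by exact_mod_cast (show 1 ≤ a by omega)
  have ht' : 1 < N * θ + a := by nlinarith
  have hm' := hkf ht'
  have hidr : (p : ℝ) * (N ^ 2 * E - a ^ 2) = 2 * a * q + r := by exact_mod_cast hid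
  have hpr : (1 : ℝ) ≤ p := by exact_mod_cast hp
  have hqr : (0 : ℝ) ≤ q := by exact_mod_cast hq
  have hP : 0 < (p : ℝ) * (N * θ + a) + q := by nlinarith
  have hc : (N * θ - a) * (p * (N * θ + a) + q) = q * (N * θ + a) + r := by
    rw [← hE] at hidr; linear_combination hidr
  symm
  apply eq_inv_of_mul_eq_one_left
  apply mul_right_cancel₀ hP.ne'
  rw [mul_assoc, hc, hm', one_mul]

theorem Good.many {θ : ℝ} {b : ℤ} {w : List ℤ} (h : Good θ b w) (hθ : Irrational θ)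
    (hpos : 0 < θ) {E : ℤ} (hE : θ ^ 2 = E) (m : ℕ) :
    ∃ N a : ℤ, (m : ℤ) < N ∧ (m : ℤ) < a ∧ Good (N * θ) a w := by
  induction m with
  | zero => exact ⟨1, b, by norm_num, by have := h.1; omega, by simpa using h⟩
  | succ m ih =>
    obtain ⟨N, a, h1, h2, h3⟩ := ih
    have hN : (0 : ℝ) < N := by exact_mod_cast (show 0 < N by omega)
    obtain ⟨N', a', k1, k2, k3⟩ := h3.lift (hθ.intCast_mul (by omega)) (by positivity)
      (E := N ^ 2 * E) (by push_cast; rw [← hE]; ring)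
    refine ⟨N' * N, a', by push_cast; nlinarith, by push_cast; omega, ?_⟩
    push_cast; rwa [mul_assoc]

theorem Good.infinite {θ : ℝ} {y : ℕ} (hy : 0 < y) {b : ℤ} {w : List ℤ} (h : Good (y * θ) b w)
    (hθ : Irrational θ) (hpos : 0 < θ) {E : ℤ} (hE : θ ^ 2 = E) (j : ℕ) :
    {n : ℕ | IsPer (n * θ) ((j + 1) * (w.length + 1))}.Infinite := by
  obtain ⟨w', h1, h2⟩ := h.rep j
  rw [← h2]
  obtain ⟨B, hB⟩ : ∃ B : ℕ, ∀ c ∈ w', c < B := by
    obtain ⟨B, hB⟩ := (List.finite_toSet w').bddAbove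
    refine ⟨B.toNat + 1, fun c hc => ?_⟩
    have := hB hc
    push_cast; omega
  apply Set.infinite_of_forall_exists_gt
  intro m
  have hy' : (0 : ℝ) < y := by exact_mod_cast hy
  obtain ⟨N, a, k1, k2, k3⟩ := h1.many (hθ.natCast_mul hy.ne') (by positivity)
    (E := y ^ 2 * E) (by push_cast; rw [← hE]; ring) (m + B)
  push_cast at k1 k2
  obtain ⟨n, rfl⟩ : ∃ n : ℕ, N = n := ⟨N.toNat, by omega⟩
  have hn : (0 : ℝ) < n := by exact_mod_cast (show 0 < n by omega)
  refine ⟨n * y, ?_, by nlinarith [show m < n by omega]⟩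
  have := isPer_of w' k3.2.1 k3.1 (by positivity) (fun c hc => by have := hB c hc; omega) k3.2.2
  simpa [mul_assoc] using this

theorem good_neg {s : ℝ} {x : ℤ} (hx : 1 ≤ x) (h : s ^ 2 = x ^ 2 + 1) :
    Good s x [] := by
  refine ⟨hx, by simp, ?_⟩
  simp only [kf]
  symm
  apply eq_inv_of_mul_eq_one_left
  linear_combination h

theorem good_pos {s : ℝ} (hs : 0 < s) {x : ℤ} (hx : 2 ≤ x) (h : s ^ 2 = x ^ 2 - 1) :
    Good s (x - 1) [1] := by
  refine ⟨by omega, by simp, ?_⟩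
  simp only [kf]
  have hx' : (2 : ℝ) ≤ x := by exact_mod_cast hx
  have h1 : s + ((x - 1 : ℤ) : ℝ) ≠ 0 := by push_cast; linarith
  symm
  apply eq_inv_of_mul_eq_one_left
  field_simp
  push_cast
  linear_combination h

theorem cq_irr {θ : ℝ} (hθ : Irrational θ) (n : ℕ) : Irrational (cq θ n) := by
  induction n with
  | zero => exact hθ
  | succ n ih => exact (ih.sub_intCast _).inv

theorem cq_gt {θ : ℝ} (hθ : Irrational θ) (n : ℕ) : 1 < cq θ (n + 1) := by
  have h1 : Int.fract (cq θ n) ≠ 0 := ((cq_irr hθ n).sub_intCast _).ne_zero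
  have h2 := lt_of_le_of_ne (Int.fract_nonneg _) h1.symm
  exact (one_lt_inv₀ h2).mpr (Int.fract_lt_one _)

theorem cq_step (θ : ℝ) (n : ℕ) : cq θ n = ⌊cq θ n⌋ + (cq θ (n + 1))⁻¹ := by
  simp [cq]

theorem cq_prod {θ : ℝ} (hθ : Irrational θ) (n : ℕ) : 2 ≤ cq θ (n + 1) * cq θ (n + 2) := by
  have h1 := cq_gt hθ n
  have h2 := cq_gt hθ (n + 1)
  have h3 : (1 : ℝ) ≤ ⌊cq θ (n + 1)⌋ := by exact_mod_cast Int.le_floor.mpr (by simpa using h1.le)
  have h4 := cq_step θ (n + 1)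
  have h5 : (cq θ (n + 1 + 1))⁻¹ * cq θ (n + 1 + 1) = 1 := inv_mul_cancel₀ (by linarith)
  rw [h4]; nlinarith

theorem cq_unique {α β : ℝ} (hα : Irrational α) (hβ : Irrational β)
    (h : ∀ i, ⌊cq α i⌋ = ⌊cq β i⌋) : α = β := by
  have step : ∀ i, |cq α i - cq β i| * (cq α (i + 1) * cq β (i + 1)) =
      |cq α (i + 1) - cq β (i + 1)| := by
    intro i
    have h1 := cq_gt hα i
    have h2 := cq_gt hβ i
    rw [← abs_of_pos (show 0 < cq α (i + 1) * cq β (i + 1) by positivity), ← abs_mul,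
      ← abs_neg]
    congr 1
    rw [cq_step α i, cq_step β i, h i]
    field_simp
    ring
  have two : ∀ i, 4 * |cq α i - cq β i| ≤ |cq α (i + 2) - cq β (i + 2)| := by
    intro i
    rw [← step (i + 1), ← step i]
    have h1 := cq_prod hα i
    have h2 := cq_prod hβ i
    have h3 : 4 ≤ cq α (i + 1) * cq α (i + 2) * (cq β (i + 1) * cq β (i + 2)) := by nlinarith
    have h4 := abs_nonneg (cq α i - cq β i)
    nlinarith
  have bd : ∀ m i, 4 ^ m * |cq α i - cq β i| ≤ 1 := by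
    intro m
    induction m with
    | zero => intro i; simpa using (Int.abs_sub_lt_one_of_floor_eq_floor (h i)).le
    | succ m ih =>
      intro i
      have h1 := ih (i + 2)
      have h2 := two i
      have h3 : (0 : ℝ) < 4 ^ m := by positivity
      rw [pow_succ]; nlinarith
  by_contra hne
  have hp : 0 < |α - β| := abs_pos.mpr (sub_ne_zero.mpr hne)
  obtain ⟨m, hm⟩ := pow_unbounded_of_one_lt (|α - β|)⁻¹ (show (1 : ℝ) < 4 by norm_num)
  have h1 := bd m 0
  simp only [cq] at h1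
  have h2 := mul_lt_mul_of_pos_right hm hp
  rw [inv_mul_cancel₀ hp.ne'] at h2
  linarith

theorem cq_word {θ : ℝ} (hθ : Irrational θ) (k : ℕ) :
    ∃ w : List ℤ, w.length = k ∧ (∀ a ∈ w, 1 ≤ a) ∧ cq θ 1 = kf w (cq θ (k + 1)) := by
  induction k with
  | zero => exact ⟨[], rfl, by simp, rfl⟩
  | succ k ih =>
    obtain ⟨w, h1, h2, h3⟩ := ih
    refine ⟨w ++ [⌊cq θ (k + 1)⌋], by simp [h1], ?_, ?_⟩
    · intro a ha
      rcases List.mem_append.mp ha with ha | ha
      · exact h2 a ha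
      · rw [List.mem_singleton.mp ha]
        exact Int.le_floor.mpr (by simpa using (cq_gt hθ k).le)
    · rw [kf_append, h3]
      congr 1
      exact cq_step θ (k + 1)

theorem neg_pell {θ : ℝ} (hθ : Irrational θ) {E : ℤ} (hE : θ ^ 2 = E) {k : ℕ} (hk : Odd k)
    (h : ∀ i, ⌊cq θ (i + k + 1)⌋ = ⌊cq θ (i + 1)⌋) : ∃ x y : ℤ, x ^ 2 - E * y ^ 2 = -1 := by
  have e : cq θ (k + 1) = cq θ 1 := by
    apply cq_unique (cq_irr hθ _) (cq_irr hθ _)
    intro i
    rw [← cq_add, ← cq_add, show k + 1 + i = i + k + 1 by ring, add_comm 1 i, h]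
  obtain ⟨w, h1, h2, h3⟩ := cq_word hθ k
  rw [e] at h3
  have hm := kf_mat w h2 (cq_gt hθ 0)
  have hd := mat_det w
  rw [h1, hk.neg_one_pow] at hd
  rw [← h3] at hm
  generalize (mat w).1 = p at *
  generalize (mat w).2.1 = p' at *
  generalize (mat w).2.2.1 = q at *
  generalize (mat w).2.2.2 = r at *
  have e1 : cq θ (0 + 1) = (θ - ⌊θ⌋)⁻¹ := rfl
  have e2 : cq θ 1 = (θ - ⌊θ⌋)⁻¹ := rfl
  rw [e1] at hm
  generalize ⌊θ⌋ = a at *
  have hne : θ - a ≠ 0 := sub_ne_zero.mpr (hθ.ne_int a)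
  have hm2 : ((r - p + 2 * a * p' : ℤ) : ℝ) * θ
      = ((a * (r - p) + p' * (E + a ^ 2) - q : ℤ) : ℝ) := by
    push_cast
    field_simp at hm
    rw [← hE]; linear_combination hm
  obtain ⟨k1, k2⟩ := irr_lin hθ hm2
  refine ⟨r + a * p', p', ?_⟩
  linear_combination hd + (r + a * p') * k1 - p' * k2

theorem main (d : ℕ) (hd : ¬ IsSquare d) (k : ℕ) (hk : 0 < k) :
    {n : ℕ | IsPer (n * Real.sqrt d) k}.Infinite ↔
      (Even k ∨ ∃ x y : ℤ, x ^ 2 - d * y ^ 2 = -1) := by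
  have hθ : Irrational (Real.sqrt d) := irrational_sqrt_natCast_iff.mpr hd
  have hd0 : 0 < d := Nat.pos_of_ne_zero (by rintro rfl; exact hd ⟨0, rfl⟩)
  have hpos : 0 < Real.sqrt d := Real.sqrt_pos.mpr (by exact_mod_cast hd0)
  have hE : Real.sqrt d ^ 2 = ((d : ℤ) : ℝ) := by rw [Real.sq_sqrt (by positivity)]; simp
  constructor
  · intro h
    rcases Nat.even_or_odd k with hk | hk
    · exact Or.inl hk
    obtain ⟨n, hn, hn0⟩ := h.exists_gt 0
    obtain ⟨x, y, hxy⟩ := neg_pell (hθ.natCast_mul hn0.ne') (E := n ^ 2 * d)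
      (by push_cast; rw [mul_pow, hE]; simp) hk hn.1.2
    exact Or.inr ⟨x, n * y, by linear_combination hxy⟩
  · rintro (⟨j, rfl⟩ | ⟨x, y, hxy⟩)
    · obtain ⟨x, y, hxy, hy⟩ := Pell.exists_of_not_isSquare (d := d) (by exact_mod_cast hd0)
        (by rwa [Int.isSquare_natCast_iff])
      have hy0 : 0 < y.natAbs := Int.natAbs_pos.mpr hy
      have hy1 : 1 ≤ y ^ 2 := by have := sq_pos_of_ne_zero hy; omega
      have hx2 : 2 ≤ |x| := by
        have : (1 : ℤ) ≤ d := by exact_mod_cast hd0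
        by_contra hlt
        have h1 := sq_abs x
        have h2 := abs_nonneg x
        nlinarith
      have hg := good_pos (s := (y.natAbs : ℝ) * Real.sqrt d) (by positivity) hx2 (by
        have : ((x ^ 2 - d * y ^ 2 : ℤ) : ℝ) = (1 : ℤ) := by rw [hxy]
        push_cast at this ⊢
        rw [mul_pow, hE, Nat.cast_natAbs]; push_cast; rw [sq_abs, sq_abs]; linarith)
      have := hg.infinite hy0 hθ hpos hE (j - 1)
      rwa [show (j - 1 + 1) * ([(1 : ℤ)].length + 1) = j + j by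
        simp only [List.length_singleton]; omega] at this
    · have hy : y ≠ 0 := by rintro rfl; nlinarith [sq_nonneg x]
      have hy0 : 0 < y.natAbs := Int.natAbs_pos.mpr hy
      have hx : x ≠ 0 := by
        rintro rfl
        apply hd
        have h1 : (d : ℤ) * y ^ 2 = 1 := by linarith
        have h2 : (d : ℤ) = 1 := Int.eq_one_of_mul_eq_one_right (by positivity) h1
        have h3 : d = 1 := by exact_mod_cast h2
        exact ⟨1, by rw [h3]⟩
      have hg := good_neg (s := (y.natAbs : ℝ) * Real.sqrt d)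
        (Int.one_le_abs hx) (by
        have : ((x ^ 2 - d * y ^ 2 : ℤ) : ℝ) = (-1 : ℤ) := by rw [hxy]
        push_cast at this ⊢
        rw [mul_pow, hE, Nat.cast_natAbs]; push_cast; rw [sq_abs, sq_abs]; linarith)
      have := hg.infinite hy0 hθ hpos hE (k - 1)
      rwa [show (k - 1 + 1) * (([] : List ℤ).length + 1) = k by
        simp only [List.length_nil]; omega] at this

theorem stream_cq {θ : ℝ} (hθ : Irrational θ) (n : ℕ) :
    GenContFract.IntFractPair.stream θ n = some (GenContFract.IntFractPair.of (cq θ n)) := by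
  induction n with
  | zero => rfl
  | succ n ih =>
    have h1 : Int.fract (cq θ n) ≠ 0 := ((cq_irr hθ n).sub_intCast _).ne_zero
    exact GenContFract.IntFractPair.stream_succ_of_some ih h1

theorem partDens_cq {θ : ℝ} (hθ : Irrational θ) (n : ℕ) :
    (GenContFract.of θ).partDens.get? n = some ((⌊cq θ (n + 1)⌋ : ℤ) : ℝ) := by
  have := GenContFract.get?_of_eq_some_of_succ_get?_intFractPair_stream (stream_cq hθ (n + 1))
  exact GenContFract.partDen_eq_s_b this

end Pool.Agent.CFMult
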